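import Mathlib

/-!
# Edge-magic and super edge-magic labelings: definitions and the basic criterion
-/

namespace Pool.Agent.V1149.Labeling

open Set

/-- `f` is an edge-magic (total) labeling of `G` with magic constant `σ`: it is a bijection from
the vertices and edges of `G` onto `{1, ..., |V| + |E|}` and `f u + f (uv) + f v = σ` for every
edge `uv`. -/
structure IsEdgeMagicLabeling {V : Type} (G : SimpleGraph V) (f : V ⊕ G.edgeSet → ℕ) (σ : ℕ) :
    Prop where
  bij : Set.BijOn f Set.univ (Set.Icc 1 (Nat.card V + Nat.card G.edgeSet))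
  magic : ∀ (u v : V) (h : G.Adj u v),
    f (Sum.inl u) + f (Sum.inr ⟨s(u, v), h⟩) + f (Sum.inl v) = σ

/-- `G` is edge-magic (total). -/
def IsEdgeMagic {V : Type} (G : SimpleGraph V) : Prop :=
  ∃ f σ, IsEdgeMagicLabeling G f σ

/-- `G` is super edge-magic: it has an edge-magic labeling giving the vertices the labels
`1, ..., |V|`. -/
def IsSuperEdgeMagic {V : Type} (G : SimpleGraph V) : Prop :=
  ∃ f σ, IsEdgeMagicLabeling G f σ ∧
    f '' (Set.range (Sum.inl : V → V ⊕ G.edgeSet)) = Set.Icc 1 (Nat.card V)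

/-- Sum of the end labels of an edge. -/
def esum {V : Type} (g : V → ℕ) : Sym2 V → ℕ :=
  Sym2.lift ⟨fun u v => g u + g v, fun u v => Nat.add_comm (g u) (g v)⟩

@[simp] lemma esum_mk {V : Type} (g : V → ℕ) (u v : V) : esum g s(u, v) = g u + g v := rfl

/-- If a map from a finite type with at most `q` elements to `ℕ` hits all of `[k, k+q)` then it is
injective with image exactly that interval, and the type has exactly `q` elements. -/
lemma inj_of_surj {α : Type} [Finite α] (S : α → ℕ) (k q : ℕ) (hq : Nat.card α ≤ q)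
    (hs : ∀ t, k ≤ t → t < k + q → ∃ a, S a = t) :
    Function.Injective S ∧ (∀ a, k ≤ S a ∧ S a < k + q) ∧ Nat.card α = q := by
  classical
  have := Fintype.ofFinite α
  have h1 : Finset.Ico k (k + q) ⊆ Finset.univ.image S := by
    intro t ht
    rw [Finset.mem_Ico] at ht
    obtain ⟨a, ha⟩ := hs t ht.1 ht.2
    exact Finset.mem_image.2 ⟨a, Finset.mem_univ _, ha⟩
  have h2 : (Finset.univ.image S).card ≤ Fintype.card α := by
    simpa using (Finset.card_image_le (s := Finset.univ) (f := S))
  have h3 : (Finset.Ico k (k + q)).card = q := by simp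
  have h4 := Finset.card_le_card h1
  rw [Nat.card_eq_fintype_card] at hq ⊢
  have h5 : (Finset.univ.image S).card = Fintype.card α := by omega
  have h6 : Fintype.card α = q := by omega
  have h7 : Finset.univ.image S = Finset.Ico k (k + q) :=
    (Finset.eq_of_subset_of_card_le h1 (by omega)).symm
  refine ⟨?_, ?_, h6⟩
  · have := Finset.card_image_iff.1 (h5.trans (Finset.card_univ (α := α)).symm)
    intro a b hab
    exact this (Finset.mem_coe.2 (Finset.mem_univ a)) (Finset.mem_coe.2 (Finset.mem_univ b)) hab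
  · intro a
    have : S a ∈ Finset.univ.image S := Finset.mem_image_of_mem _ (Finset.mem_univ a)
    rw [h7, Finset.mem_Ico] at this
    exact this

/-- The criterion: a vertex labeling that hits `1, ..., |V|` and whose edge sums hit an interval of
length `q ≥ |E|` extends to a super edge-magic labeling. -/
theorem sem_of {V : Type} [Finite V] (G : SimpleGraph V) (g : V → ℕ) (p k q : ℕ)
    (hp : Nat.card V ≤ p)
    (hq : Nat.card G.edgeSet ≤ q)
    (hv : ∀ l, 1 ≤ l → l < 1 + p → ∃ v, g v = l)
    (he : ∀ t, k ≤ t → t < k + q → ∃ u v, G.Adj u v ∧ g u + g v = t) :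
    IsSuperEdgeMagic G := by
  classical
  obtain ⟨gi, gb, gc⟩ := inj_of_surj g 1 p hp hv
  obtain ⟨si, sb, sc⟩ := inj_of_surj (fun e : G.edgeSet => esum g e.1) k q hq (by
    intro t h1 h2
    obtain ⟨u, v, h, hs⟩ := he t h1 h2
    exact ⟨⟨s(u, v), h⟩, hs⟩)
  set f : V ⊕ G.edgeSet → ℕ := Sum.elim g (fun e => p + q + k - esum g e.1) with hf
  refine ⟨f, p + q + k, ⟨⟨?_, ?_, ?_⟩, ?_⟩, ?_⟩
  · rintro (v | e) -
    · have := gb v
      simp only [hf, Sum.elim_inl, Set.mem_Icc]
      omega
    · have := sb e
      simp only [hf, Sum.elim_inr, Set.mem_Icc]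
      omega
  · rintro (v | e) - (w | e') - h
    · simp only [hf, Sum.elim_inl] at h
      rw [gi h]
    · simp only [hf, Sum.elim_inl, Sum.elim_inr] at h
      have h1 := gb v
      have h2 := sb e'
      omega
    · simp only [hf, Sum.elim_inl, Sum.elim_inr] at h
      have h1 := gb w
      have h2 := sb e
      omega
    · simp only [hf, Sum.elim_inr] at h
      have h1 := sb e
      have h2 := sb e'
      have h3 : (fun e : G.edgeSet => esum g e.1) e = (fun e : G.edgeSet => esum g e.1) e' := by
        show esum g e.1 = esum g e'.1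
        omega
      rw [si h3]
  · intro y hy
    rw [Set.mem_Icc, gc, sc] at hy
    by_cases hyp : y ≤ p
    · obtain ⟨v, hv'⟩ := hv y hy.1 (by omega)
      exact ⟨Sum.inl v, Set.mem_univ _, by simpa [hf] using hv'⟩
    · obtain ⟨u, v, h, hs⟩ := he (p + q + k - y) (by omega) (by omega)
      refine ⟨Sum.inr ⟨s(u, v), h⟩, Set.mem_univ _, ?_⟩
      simp only [hf, Sum.elim_inr, esum_mk]
      omega
  · intro u v h
    have := sb ⟨s(u, v), h⟩
    simp only [esum_mk] at this
    simp only [hf, Sum.elim_inl, Sum.elim_inr, esum_mk]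
    omega
  · ext y
    constructor
    · rintro ⟨_, ⟨v, rfl⟩, rfl⟩
      have := gb v
      simp only [hf, Sum.elim_inl, Set.mem_Icc]
      omega
    · intro hy
      rw [Set.mem_Icc] at hy
      obtain ⟨v, hv'⟩ := hv y hy.1 (by omega)
      exact ⟨Sum.inl v, ⟨v, rfl⟩, by simpa [hf] using hv'⟩

end Pool.Agent.V1149.Labeling
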