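import Mathlib
import Pool.Agent.V1149.Labeling.Basic

/-!
# A criterion for edge-magic total labelings, and its form for two equal cycles
-/

namespace Pool.Agent.V1149.Labeling

open SimpleGraph

/-- The criterion: `M ≥ |V| + |E|` and every `l ∈ [1, M]` is a vertex label or the complement
`σ - (g u + g v)` of an edge sum. -/
theorem emt_of {V : Type} [Finite V] (G : SimpleGraph V) (g : V → ℕ) (M σ : ℕ)
    (hM : Nat.card V + Nat.card G.edgeSet ≤ M)
    (h : ∀ l, 1 ≤ l → l ≤ M → (∃ v, g v = l) ∨ (∃ u v, G.Adj u v ∧ g u + g v + l = σ)) :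
    IsEdgeMagic G := by
  classical
  have hE : Finite G.edgeSet := inferInstance
  have hcard : Nat.card (V ⊕ G.edgeSet) = Nat.card V + Nat.card G.edgeSet := Nat.card_sum
  set f : V ⊕ G.edgeSet → ℕ := Sum.elim g (fun e => σ - esum g e.1) with hf
  obtain ⟨fi, fb, fc⟩ := inj_of_surj f 1 M (hcard.trans_le hM) (by
    intro t h1 h2
    rcases h t h1 (by omega) with ⟨v, hv⟩ | ⟨u, v, huv, hs⟩
    · exact ⟨Sum.inl v, by simpa [hf] using hv⟩
    · refine ⟨Sum.inr ⟨s(u, v), huv⟩, ?_⟩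
      simp only [hf, Sum.elim_inr, esum_mk]
      omega)
  refine ⟨f, σ, ⟨?_, fun _ _ _ _ hxy => fi hxy, ?_⟩, ?_⟩
  · intro x _
    have := fb x
    rw [← hcard, fc, Set.mem_Icc]
    omega
  · intro y hy
    rw [← hcard, fc, Set.mem_Icc] at hy
    rcases h y hy.1 hy.2 with ⟨v, hv⟩ | ⟨u, v, huv, hs⟩
    · exact ⟨Sum.inl v, Set.mem_univ _, by simpa [hf] using hv⟩
    · refine ⟨Sum.inr ⟨s(u, v), huv⟩, Set.mem_univ _, ?_⟩
      simp only [hf, Sum.elim_inr, esum_mk]
      omega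
  · intro u v huv
    have := (fb (Sum.inr ⟨s(u, v), huv⟩)).1
    simp only [hf, Sum.elim_inr, esum_mk] at this
    simp only [hf, Sum.elim_inl, Sum.elim_inr, esum_mk]
    omega

/-- Two disjoint `(m+2)`-cycles have at most `2 (m + 2)` edges. -/
lemma two_cycles_card (m : ℕ) :
    Nat.card (cycleGraph (m + 2) ⊕g cycleGraph (m + 2)).edgeSet ≤ 2 * (m + 2) := by
  classical
  have adj : ∀ i : Fin (m + 2), (cycleGraph (m + 2)).Adj i (i + 1) := by
    intro i
    rw [cycleGraph_adj]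
    right
    simp
  let F : (Fin (m + 2) ⊕ Fin (m + 2)) → (cycleGraph (m + 2) ⊕g cycleGraph (m + 2)).edgeSet :=
    fun x => match x with
    | Sum.inl i => ⟨s(Sum.inl i, Sum.inl (i + 1)), by
        show (cycleGraph (m + 2) ⊕g cycleGraph (m + 2)).Adj (Sum.inl i) (Sum.inl (i + 1))
        exact sum_adj_inl.2 (adj i)⟩
    | Sum.inr i => ⟨s(Sum.inr i, Sum.inr (i + 1)), by
        show (cycleGraph (m + 2) ⊕g cycleGraph (m + 2)).Adj (Sum.inr i) (Sum.inr (i + 1))
        exact sum_adj_inr.2 (adj i)⟩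
  have hF : Function.Surjective F := by
    rintro ⟨e, he⟩
    induction e using Sym2.ind with
    | _ u v =>
      have he' : (cycleGraph (m + 2) ⊕g cycleGraph (m + 2)).Adj u v := he
      rcases u with u | u <;> rcases v with v | v
      · rw [sum_adj_inl, cycleGraph_adj] at he'
        rcases he' with h | h
        · have h' : u = v + 1 := by rw [← h]; abel
          subst h'
          exact ⟨Sum.inl v, Subtype.ext Sym2.eq_swap⟩
        · have h' : v = u + 1 := by rw [← h]; abel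
          subst h'
          exact ⟨Sum.inl u, rfl⟩
      · simp at he'
      · simp at he'
      · rw [sum_adj_inr, cycleGraph_adj] at he'
        rcases he' with h | h
        · have h' : u = v + 1 := by rw [← h]; abel
          subst h'
          exact ⟨Sum.inr v, Subtype.ext Sym2.eq_swap⟩
        · have h' : v = u + 1 := by rw [← h]; abel
          subst h'
          exact ⟨Sum.inr u, rfl⟩
  have h := Nat.card_le_card_of_surjective F hF
  refine h.trans ?_
  rw [Nat.card_eq_fintype_card, Fintype.card_sum, Fintype.card_fin]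
  omega

lemma cyc_adj_succ (n i : ℕ) (h : i + 1 < n) :
    (cycleGraph n).Adj ⟨i, by omega⟩ ⟨i + 1, h⟩ := by
  apply pathGraph_le_cycleGraph
  rw [pathGraph_adj]
  left
  rfl

lemma cyc_adj_last (m : ℕ) : (cycleGraph (m + 2)).Adj (Fin.last (m + 1)) 0 := by
  rw [cycleGraph_adj]
  right
  have h : Fin.last (m + 1) + 1 = 0 := Fin.last_add_one (m + 1)
  exact sub_eq_of_eq_add (by rw [← h]; exact (add_comm (Fin.last (m + 1)) 1))

/-- Criterion for two disjoint cycles of length `n ≥ 3` with positions `0, ..., n - 1`. -/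
theorem two_cycles_emt (n σ : ℕ) (hn : 3 ≤ n) (X Y : ℕ → ℕ)
    (h : ∀ l, 1 ≤ l → l ≤ 4 * n → (∃ i, i < n ∧ (X i = l ∨ Y i = l)) ∨
      (∃ i, i + 1 < n ∧ (X i + X (i + 1) + l = σ ∨ Y i + Y (i + 1) + l = σ)) ∨
      (X (n - 1) + X 0 + l = σ ∨ Y (n - 1) + Y 0 + l = σ)) :
    IsEdgeMagic (cycleGraph n ⊕g cycleGraph n) := by
  obtain ⟨m, rfl⟩ : ∃ m, n = m + 2 := ⟨n - 2, by omega⟩
  refine emt_of _ (Sum.elim (fun i => X i.val) (fun i => Y i.val)) (4 * (m + 2)) σ ?_ ?_
  · have := two_cycles_card m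
    rw [Nat.card_sum, Nat.card_eq_fintype_card, Fintype.card_fin]
    omega
  · intro l h1 h2
    rcases h l h1 h2 with ⟨i, hi, hx | hy⟩ | ⟨i, hi, hx | hy⟩ | hx | hy
    · exact Or.inl ⟨Sum.inl ⟨i, hi⟩, hx⟩
    · exact Or.inl ⟨Sum.inr ⟨i, hi⟩, hy⟩
    · exact Or.inr ⟨Sum.inl ⟨i, by omega⟩, Sum.inl ⟨i + 1, hi⟩,
        sum_adj_inl.2 (cyc_adj_succ (m + 2) i hi), hx⟩
    · exact Or.inr ⟨Sum.inr ⟨i, by omega⟩, Sum.inr ⟨i + 1, hi⟩,
        sum_adj_inr.2 (cyc_adj_succ (m + 2) i hi), hy⟩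
    · exact Or.inr ⟨Sum.inl (Fin.last (m + 1)), Sum.inl 0, sum_adj_inl.2 (cyc_adj_last m), hx⟩
    · exact Or.inr ⟨Sum.inr (Fin.last (m + 1)), Sum.inr 0, sum_adj_inr.2 (cyc_adj_last m), hy⟩

end Pool.Agent.V1149.Labeling
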